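import Pool.Agent.Lib.MP_cdd51b_co.One

set_option autoImplicit false

namespace Pool.Agent.Results.MP_cdd51b_co.MissOne

open Pool.Agent.Lib.MP_cdd51b_co

/-- Every latin cube of sufficiently large order `n` has a partial transversal with at least
`n - 1` cells. -/
theorem result :
    ∃ n0 : ℕ, ∀ n : ℕ, n0 ≤ n → ∀ L : Fin n → Fin n → Fin n → Fin n,
      (∀ j k : Fin n, Function.Injective (fun i => L i j k)) →
      (∀ i k : Fin n, Function.Injective (fun j => L i j k)) →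
      (∀ i j : Fin n, Function.Injective (fun k => L i j k)) →
      ∃ T : Finset (Fin n × Fin n × Fin n), n ≤ T.card + 1 ∧
        ∀ c ∈ T, ∀ d ∈ T, c ≠ d →
          c.1 ≠ d.1 ∧ c.2.1 ≠ d.2.1 ∧ c.2.2 ≠ d.2.2 ∧
            L c.1 c.2.1 c.2.2 ≠ L d.1 d.2.1 d.2.2 := by
  obtain ⟨n0, h⟩ := near_one
  refine ⟨n0, fun n hn L h1 h2 h3 => ?_⟩
  obtain ⟨M, m1, m2⟩ := h n hn ⟨L, h1, h2, h3⟩
  exact ⟨M, m2, fun c hc d hd h => ⟨m1 c hc d hd h 0, m1 c hc d hd h 1, m1 c hc d hd h 2,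
    m1 c hc d hd h 3⟩⟩

end Pool.Agent.Results.MP_cdd51b_co.MissOne
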