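import Pool.Agent.Lib.MP_cdd51b_co.NsEx

set_option autoImplicit false

namespace Pool.Agent.Results.MP_cdd51b_co.NoSparseCut

open Pool.Agent.Lib.MP_cdd51b_co

/-- Every latin cube of sufficiently large order `n` has a transversal, provided that every pair
of sets `S` (of pairs `(x, y)`) and `T` (of pairs `(z, s)`) with
`2 * n ^ 2 / 3 ≤ |S| + |T| ≤ n ^ 2` is crossed by at least `n ^ (59 / 20)` cells. -/
theorem result :
    ∃ n0 : ℕ, ∀ n : ℕ, n0 ≤ n → ∀ L : Fin n → Fin n → Fin n → Fin n,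
      (∀ j k : Fin n, Function.Injective (fun i => L i j k)) →
      (∀ i k : Fin n, Function.Injective (fun j => L i j k)) →
      (∀ i j : Fin n, Function.Injective (fun k => L i j k)) →
      (∀ S T : Finset (Fin n × Fin n),
        2 * n ^ 2 ≤ 3 * (S.card + T.card) → S.card + T.card ≤ n ^ 2 →
        n ^ 59 ≤ (Finset.univ.filter fun c : Fin n × Fin n × Fin n =>
          ¬ ((c.1, c.2.1) ∈ S ↔ (c.2.2, L c.1 c.2.1 c.2.2) ∈ T)).card ^ 20) →
      ∃ σ τ : Equiv.Perm (Fin n), Function.Injective (fun i => L i (σ i) (τ i)) := by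
  obtain ⟨n0, h⟩ := no_sparse_cut
  exact ⟨n0, fun n hn L h1 h2 h3 hc => h n hn ⟨L, h1, h2, h3⟩ hc⟩

/-- The hypotheses of `result` hold for latin cubes of arbitrarily large order. -/
theorem hypothesis_holds (N : ℕ) :
    ∃ n : ℕ, N ≤ n ∧ ∃ L : Fin n → Fin n → Fin n → Fin n,
      (∀ j k : Fin n, Function.Injective (fun i => L i j k)) ∧
      (∀ i k : Fin n, Function.Injective (fun j => L i j k)) ∧
      (∀ i j : Fin n, Function.Injective (fun k => L i j k)) ∧
      ∀ S T : Finset (Fin n × Fin n),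
        2 * n ^ 2 ≤ 3 * (S.card + T.card) → S.card + T.card ≤ n ^ 2 →
        n ^ 59 ≤ (Finset.univ.filter fun c : Fin n × Fin n × Fin n =>
          ¬ ((c.1, c.2.1) ∈ S ↔ (c.2.2, L c.1 c.2.1 c.2.2) ∈ T)).card ^ 20 := by
  obtain ⟨n, hn, Q, h⟩ := exists_no_cut N
  exact ⟨n, hn, Q.L, Q.h1, Q.h2, Q.h3, fun S T s1 => h S T (by omega)⟩

/-- Corollary: a latin cube over a large finite field `F` that agrees with `x * z + y` on all but
at most `|F| ^ 3 / 2000` cells has a transversal. -/
theorem close_to_affine :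
    ∃ n0 : ℕ, ∀ (F : Type) [Field F] [Fintype F] [DecidableEq F], n0 ≤ Fintype.card F →
      ∀ L : F → F → F → F, (∀ j k, Function.Injective fun i => L i j k) →
      (∀ i k, Function.Injective fun j => L i j k) →
      (∀ i j, Function.Injective fun k => L i j k) →
      2000 * (Finset.univ.filter fun c : F × F × F =>
        L c.1 c.2.1 c.2.2 ≠ c.1 * c.2.2 + c.2.1).card ≤ Fintype.card F ^ 3 →
      ∃ σ τ : Equiv.Perm F, Function.Injective fun i => L i (σ i) (τ i) :=
  near_field

end Pool.Agent.Results.MP_cdd51b_co.NoSparseCut
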